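import Mathlib
import Pool.Agent.H.MP_8bc176_co.A

set_option autoImplicit false

namespace Pool.Agent.Results.MP_8bc176_co.No

open MeasureTheory Filter Topology

open Classical in
/-- Vertex sets of the `d`-simplices with all vertices in `S`. -/
noncomputable def simplices {d : ℕ} (S : Finset (EuclideanSpace ℝ (Fin d))) :
    Finset (Finset (EuclideanSpace ℝ (Fin d))) :=
  S.powerset.filter fun T =>
    T.card = d + 1 ∧ AffineIndependent ℝ ((↑) : T → EuclideanSpace ℝ (Fin d))

/-- The density of the standard measure of a set: its indicator function. -/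
noncomputable def chi {d : ℕ} (X : Set (EuclideanSpace ℝ (Fin d)))
    (x : EuclideanSpace ℝ (Fin d)) : ℝ :=
  X.indicator (fun _ => (1 : ℝ)) x

open Pool.Agent.H.MP_8bc176_co in
theorem result (d : ℕ) (S : Finset (EuclideanSpace ℝ (Fin d)))
    (P : Set (EuclideanSpace ℝ (Fin d))) (c : Finset (EuclideanSpace ℝ (Fin d)) → ℝ)
    (h : ∀ᵐ x, chi P x = ∑ T ∈ simplices S, c T * chi (convexHull ℝ (T : Set _)) x) :
    ∃ n : Finset (EuclideanSpace ℝ (Fin d)) → ℤ,
      ∀ᵐ x, chi P x = ∑ T ∈ simplices S, (n T : ℝ) * chi (convexHull ℝ (T : Set _)) x := by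
  classical
  have hd : Module.finrank ℝ (⊤ : AffineSubspace ℝ (EuclideanSpace ℝ (Fin d))).direction = d := by
    rw [AffineSubspace.direction_top]; simp
  have hS : simplices S = Sx S d ⊤ := by
    ext T
    simp only [simplices, mem_Sx, Finset.mem_filter, Finset.mem_powerset]
    refine and_congr_right fun _ => and_congr_right fun hc => ⟨fun hi => ?_, fun hs => ?_⟩
    · have := hi.affineSpan_eq_top_iff_card_eq_finrank_add_one.mpr (by simpa using hc)
      rwa [Subtype.range_coe_subtype] at this
    · exact (indep_iff hc).mpr (hs ▸ hd)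
  rw [hS] at h ⊢
  have loc : ∀ T ∈ Sx S d ⊤, ∀ᶠ x in gen ((⊤ : AffineSubspace ℝ (EuclideanSpace ℝ (Fin d))) :
      Set (EuclideanSpace ℝ (Fin d))), ∀ᶠ y in 𝓝 x, ind T y = ind T x := by
    intro T hT
    obtain ⟨-, hc, hs⟩ := mem_Sx.mp hT
    obtain ⟨f, e, hδ, hb⟩ := bary ((indep_iff hc).mpr (hs ▸ hd))
    have mem : ∀ x, x ∈ convexHull ℝ (T : Set (EuclideanSpace ℝ (Fin d))) ↔
        ∀ s ∈ T, 0 ≤ f s x - e s := by
      intro x
      have hxb := hb x (hs ▸ AffineSubspace.mem_top ℝ _ x)
      refine ⟨fun h s hs => hull_nonneg _ _ (fun y hy => ?_) h, fun h => ?_⟩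
      · rw [hδ s hs y hy]; split_ifs <;> norm_num
      · rw [← hxb.2]
        exact (convex_convexHull ℝ _).sum_mem h hxb.1 fun s hs => subset_convexHull ℝ _ hs
    have g1 : ∀ᶠ x in gen ((⊤ : AffineSubspace ℝ (EuclideanSpace ℝ (Fin d))) :
        Set (EuclideanSpace ℝ (Fin d))), ∀ t ∈ T, f t x ≠ e t :=
      (eventually_all_finset T).mpr fun t ht => ev_ne _ _ (AffineSubspace.mem_top ℝ _ t) fun h => by
        have := hδ t ht t ht
        simp [h] at this
    filter_upwards [g1] with x hx
    have : ∀ᶠ y in 𝓝 x, ∀ s ∈ T, (0 ≤ f s y - e s ↔ 0 ≤ f s x - e s) :=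
      (eventually_all_finset T).mpr fun s hs => by
        have hc : Continuous (f s) := (f s).continuous_of_finiteDimensional
        rcases lt_or_gt_of_ne (hx s hs) with c1 | c1
        · exact (hc.continuousAt.eventually_lt continuousAt_const c1).mono fun y hy =>
            iff_of_false (by linarith) (by linarith)
        · exact (continuousAt_const.eventually_lt hc.continuousAt c1).mono fun y hy =>
            iff_of_true (by linarith) (by linarith)
    filter_upwards [this] with y hy
    simp only [ind, Set.indicator_apply, mem]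
    exact if_congr (forall₂_congr hy) rfl rfl
  obtain ⟨n, hn⟩ := main S d ⊤ hd c (by
    filter_upwards [(eventually_all_finset _).mpr loc] with x hx
    obtain ⟨y, hy1, hy2⟩ := (Measure.dense_of_ae h).inter_nhds_nonempty
      ((eventually_all_finset _).mpr hx)
    have e : ∑ T ∈ Sx S d ⊤, c T * ind T x = chi P y := by
      rw [hy1]
      exact Finset.sum_congr rfl fun T hT => by rw [← hy2 T hT]; rfl
    rw [e]
    by_cases hP : y ∈ P
    · exact ⟨1, by simp [chi, hP]⟩
    · exact ⟨0, by simp [chi, hP]⟩)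
  refine ⟨n, ?_⟩
  obtain ⟨I, i1, i2, i3⟩ := ev_iff.mp hn
  have : ∀ᵐ x : EuclideanSpace ℝ (Fin d), ∀ l ∈ I, l.1 x ≠ l.2 :=
    (eventually_all_finite i1).mpr fun l hl => by
      obtain ⟨a, -, ha⟩ := i2 l hl
      have := Measure.addHaar_affineSubspace volume
        ((AffineSubspace.mk' l.2 ⊥).comap l.1.toAffineMap) (fun ht => ha (by
          have : a ∈ (AffineSubspace.mk' l.2 ⊥).comap l.1.toAffineMap :=
            ht ▸ AffineSubspace.mem_top ℝ _ a
          simpa [sub_eq_zero] using this))
      rw [ae_iff]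
      convert this using 2
      ext x
      simp [sub_eq_zero]
  filter_upwards [h, this] with x h1 h2
  rw [h1]
  exact i3 x (AffineSubspace.mem_top ℝ _ x) h2

end Pool.Agent.Results.MP_8bc176_co.No
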